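import Pool.Agent.Lib.H81W.S5

/-!
# H81W, steps 3 and 4 together: the constants
-/

open Finset

namespace Pool.Agent.Lib.H81W

open Pool.Agent.H44W (ee TF cut)
open Pool.Agent.H81E (norm_ee ee_add ee_neg parseval)

/-- Real arithmetic 1. -/
theorem r1 (n K m A F D : ℝ) (c : ℕ) (hn : 0 < n) (hK : 0 < K) (hD : 0 < D) (hA0 : 0 ≤ A) (hA : A ≤ K) (hF : 0 ≤ F) (h1 : K / D ^ c ≤ m)
    (h3 : (n ^ 2 / D ^ c) ^ 4 * m ^ 3 ≤ 16 * n ^ 6 * A ^ 2 * F) : n ^ 2 * K / (16 * D ^ (7 * c)) ≤ F := by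
  have hd : 0 < D ^ c := by positivity
  rw [show D ^ (7 * c) = (D ^ c) ^ 7 by rw [← pow_mul, mul_comm]]
  generalize D ^ c = d at *
  have h0 : 0 < K / d := by positivity
  have h5 : (n ^ 2 / d) ^ 4 * (K / d) ^ 3 ≤ 16 * n ^ 6 * K ^ 2 * F := by
    have h6 : (K / d) ^ 3 ≤ m ^ 3 := pow_le_pow_left₀ h0.le h1 3
    have h7 : A ^ 2 ≤ K ^ 2 := pow_le_pow_left₀ hA0 hA 2
    have h8 : (n ^ 2 / d) ^ 4 * (K / d) ^ 3 ≤ (n ^ 2 / d) ^ 4 * m ^ 3 := mul_le_mul_of_nonneg_left h6 (by positivity)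
    have h9 : 16 * n ^ 6 * A ^ 2 * F ≤ 16 * n ^ 6 * K ^ 2 * F :=
      mul_le_mul_of_nonneg_right (mul_le_mul_of_nonneg_left h7 (by positivity)) hF
    exact h8.trans (h3.trans h9)
  have h6 : (n ^ 2 / d) ^ 4 * (K / d) ^ 3 = (16 * n ^ 6 * K ^ 2) * (n ^ 2 * K / (16 * d ^ 7)) := by
    field_simp
  rw [h6] at h5
  exact le_of_mul_le_mul_left h5 (by positivity)

/-- Real arithmetic 2. -/
theorem r2 (n K D : ℝ) (c : ℕ) (hn : 0 < n) (h2 : 2 ≤ D) (hK : D ^ (8 * c + 11) ≤ K) : 4 * n ^ 2 * D ^ c ≤ n ^ 2 * K / (32 * D ^ (7 * c)) := by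
  have hD0 : 0 < D := by linarith
  rw [le_div_iff₀ (by positivity)]
  have h8 : 128 * D ^ (8 * c) ≤ K := by
    calc 128 * D ^ (8 * c) ≤ D ^ 11 * D ^ (8 * c) := by
          refine mul_le_mul_of_nonneg_right ?_ (by positivity)
          calc (128 : ℝ) ≤ 2 ^ 11 := by norm_num
            _ ≤ D ^ 11 := pow_le_pow_left₀ (by norm_num) h2 11
      _ = D ^ (8 * c + 11) := by rw [pow_add]; ring
      _ ≤ K := hK
  calc 4 * n ^ 2 * D ^ c * (32 * D ^ (7 * c)) = n ^ 2 * (128 * D ^ (8 * c)) := by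
        rw [show 8 * c = c + 7 * c by ring, pow_add]
        ring
    _ ≤ n ^ 2 * K := mul_le_mul_of_nonneg_left h8 (by positivity)

/-- The off-diagonal part for one pair. -/
theorem one_pair (n K c : ℕ) (D : ℝ) (hn : 1 ≤ n) (hK1 : 1 ≤ K) (h2 : 2 ≤ D) (hK : D ^ (8 * c + 11) ≤ K) (hKn : K ≤ n)
    (g : ℤ → ℂ) (hg : ∀ x, ‖g x‖ ≤ 1) (hs : ∀ y, y ∉ Icc (1 : ℤ) n → g y = 0) (j k : ℤ) (m : ℕ) (hm : (m : ℤ) = |j|) (h1 : (K : ℝ) / D ^ c ≤ |(j : ℝ)|) (hp : |j| < K)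
    (th : ℝ) (hth : (n : ℝ) ^ 2 / D ^ c ≤ ∑ a ∈ Aj K j, En n m (fun y => Gd g (a * (a + j) * k) y * ee (th * y))) :
    (n : ℝ) ^ 2 * K / (32 * D ^ (7 * c)) ≤
      ∑ x ∈ (Aj K j ×ˢ Aj K j).filter (fun x => x.1 ≠ x.2), En n m (Gd g (k * (x.2 - x.1) * (x.2 + x.1 + j))) := by
  classical
  have hD0 : (0 : ℝ) < D := by linarith
  have hnr : (0 : ℝ) < n := by exact_mod_cast (by omega : 0 < n)
  have hKr : (0 : ℝ) < K := by exact_mod_cast (by omega : 0 < K)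
  have hmabs : (m : ℝ) = |(j : ℝ)| := by
    rw [← Int.cast_abs, ← hm, Int.cast_natCast]
  rw [← hmabs] at h1
  have hm0 : (0 : ℝ) < m := lt_of_lt_of_le (by positivity) h1
  have hm1 : 0 < m := by exact_mod_cast hm0
  have hmK : m < K := by
    rw [← hm] at hp
    exact_mod_cast hp
  have h3 := step3 n m hm1 (by omega) g hg hs (Aj K j) (fun a => a * (a + j) * k) th ((n : ℝ) ^ 2 / D ^ c) (by positivity) hth
  have hcard : ((Aj K j).card : ℝ) ≤ K := by exact_mod_cast card_Aj K j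
  have hF0 : 0 ≤ ∑ a ∈ Aj K j, ∑ b ∈ Aj K j, En n m (Gd g (b * (b + j) * k - a * (a + j) * k)) :=
    sum_nonneg fun _ _ => sum_nonneg fun _ _ => En_nonneg _ _ _
  have h4 := r1 n K m _ _ D c hnr hKr hD0 (Nat.cast_nonneg _) hcard hF0 h1 h3
  have h5 : ∑ a ∈ Aj K j, ∑ b ∈ Aj K j, En n m (Gd g (b * (b + j) * k - a * (a + j) * k)) =
      ∑ x ∈ (Aj K j ×ˢ Aj K j).filter (fun x => x.1 ≠ x.2), En n m (Gd g (k * (x.2 - x.1) * (x.2 + x.1 + j))) +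
      ∑ x ∈ (Aj K j ×ˢ Aj K j).filter (fun x => ¬ x.1 ≠ x.2), En n m (Gd g (k * (x.2 - x.1) * (x.2 + x.1 + j))) := by
    rw [sum_filter_add_sum_filter_not, sum_product]
    refine sum_congr rfl fun a _ => sum_congr rfl fun b _ => ?_
    rw [show b * (b + j) * k - a * (a + j) * k = k * (b - a) * (b + a + j) by ring]
  have h6 : ∑ x ∈ (Aj K j ×ˢ Aj K j).filter (fun x => ¬ x.1 ≠ x.2), En n m (Gd g (k * (x.2 - x.1) * (x.2 + x.1 + j))) ≤ 4 * n ^ 2 * D ^ c := by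
    have h7 : ∀ x ∈ (Aj K j ×ˢ Aj K j).filter (fun x => ¬ x.1 ≠ x.2), En n m (Gd g (k * (x.2 - x.1) * (x.2 + x.1 + j))) ≤ 4 * n ^ 2 * D ^ c / K := by
      intro x _
      refine (En_le n m hm1 (by omega) _ (norm_Gd_le hg _)).trans ?_
      rw [div_le_div_iff₀ hm0 hKr]
      have h8 : (K : ℝ) ≤ m * D ^ c := by
        rwa [div_le_iff₀ (by positivity)] at h1
      calc 4 * (n : ℝ) ^ 2 * K ≤ 4 * (n : ℝ) ^ 2 * (m * D ^ c) := mul_le_mul_of_nonneg_left h8 (by positivity)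
        _ = _ := by ring
    refine (sum_le_card_nsmul _ _ _ h7).trans ?_
    have h8 : ((Aj K j ×ˢ Aj K j).filter (fun x => ¬ x.1 ≠ x.2)).card ≤ K := by
      refine le_trans ?_ (card_Aj K j)
      refine card_le_card_of_injOn (fun x => x.1) ?_ ?_
      · intro x hx
        rw [mem_coe, mem_filter, mem_product] at hx
        exact hx.1.1
      · intro x hx y hy h
        rw [mem_coe, mem_filter] at hx hy
        have hx2 := not_not.1 hx.2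
        have hy2 := not_not.1 hy.2
        refine Prod.ext h ?_
        rw [← hx2, ← hy2]
        exact h
    rw [nsmul_eq_mul]
    calc (((Aj K j ×ˢ Aj K j).filter (fun x => ¬ x.1 ≠ x.2)).card : ℝ) * (4 * n ^ 2 * D ^ c / K) ≤ K * (4 * n ^ 2 * D ^ c / K) := by
          refine mul_le_mul_of_nonneg_right (by exact_mod_cast h8) (by positivity)
      _ = 4 * n ^ 2 * D ^ c := by field_simp
  have h7 := r2 n K D c hnr h2 hK
  have h8 : (n : ℝ) ^ 2 * K / (16 * D ^ (7 * c)) = (n : ℝ) ^ 2 * K / (32 * D ^ (7 * c)) + (n : ℝ) ^ 2 * K / (32 * D ^ (7 * c)) := by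
    field_simp
    ring
  rw [h8, h5] at h4
  linarith

/-- Real arithmetic 3. -/
theorem r3 (n K G D : ℝ) (c : ℕ) (hn : 0 < n) (hK : 0 < K) (h2 : 2 ≤ D) (hG : 0 ≤ G) (hKn1 : K * D ^ (8 * c + 11) ≤ n)
    (h7 : n ^ 3 / (32 * D ^ (8 * c)) ≤ 4 * D ^ 2 * (K * n ^ 2 + D * (n * G ^ 2))) : n / D ^ (4 * c + 6) ≤ G := by
  have hD0 : 0 < D := by linarith
  have h8 : 4 * D ^ 2 * (K * n ^ 2) ≤ n ^ 3 / (64 * D ^ (8 * c)) := by
    rw [le_div_iff₀ (by positivity)]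
    have h9 : 256 * D ^ (8 * c + 2) * K ≤ n := by
      calc 256 * D ^ (8 * c + 2) * K ≤ D ^ 9 * D ^ (8 * c + 2) * K := by
            refine mul_le_mul_of_nonneg_right (mul_le_mul_of_nonneg_right ?_ (by positivity)) hK.le
            calc (256 : ℝ) ≤ 2 ^ 9 := by norm_num
              _ ≤ D ^ 9 := pow_le_pow_left₀ (by norm_num) h2 9
        _ = K * D ^ (8 * c + 11) := by rw [← pow_add, show 9 + (8 * c + 2) = 8 * c + 11 by ring]; ring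
        _ ≤ n := hKn1
    calc 4 * D ^ 2 * (K * n ^ 2) * (64 * D ^ (8 * c)) = n ^ 2 * (256 * D ^ (8 * c + 2) * K) := by
          rw [pow_add]
          ring
      _ ≤ n ^ 2 * n := mul_le_mul_of_nonneg_left h9 (by positivity)
      _ = n ^ 3 := by ring
  have h9 : n ^ 3 / (32 * D ^ (8 * c)) = n ^ 3 / (64 * D ^ (8 * c)) + n ^ 3 / (64 * D ^ (8 * c)) := by
    field_simp
    ring
  have h10 : n ^ 3 / (64 * D ^ (8 * c)) ≤ 4 * D ^ 3 * (n * G ^ 2) := by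
    have h11 : 4 * D ^ 2 * (K * n ^ 2 + D * (n * G ^ 2)) = 4 * D ^ 2 * (K * n ^ 2) + 4 * D ^ 3 * (n * G ^ 2) := by ring
    rw [h11] at h7
    linarith
  have h11 : (n / D ^ (4 * c + 6)) ^ 2 ≤ G ^ 2 := by
    rw [div_le_iff₀ (by positivity)] at h10
    have h12 : n ^ 2 ≤ G ^ 2 * (256 * D ^ (8 * c + 3)) := by
      have h13 : n * n ^ 2 ≤ n * (G ^ 2 * (256 * D ^ (8 * c + 3))) := by
        calc n * n ^ 2 = n ^ 3 := by ring
          _ ≤ 4 * D ^ 3 * (n * G ^ 2) * (64 * D ^ (8 * c)) := h10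
          _ = n * (G ^ 2 * (256 * D ^ (8 * c + 3))) := by rw [pow_add]; ring
      exact le_of_mul_le_mul_left h13 hn
    rw [div_pow, div_le_iff₀ (by positivity)]
    refine h12.trans (mul_le_mul_of_nonneg_left ?_ (by positivity))
    calc 256 * D ^ (8 * c + 3) ≤ D ^ 9 * D ^ (8 * c + 3) := by
          refine mul_le_mul_of_nonneg_right ?_ (by positivity)
          calc (256 : ℝ) ≤ 2 ^ 9 := by norm_num
            _ ≤ D ^ 9 := pow_le_pow_left₀ (by norm_num) h2 9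
      _ = (D ^ (4 * c + 6)) ^ 2 := by rw [← pow_add, ← pow_mul]; congr 1; ring
  exact le_of_sq_le_sq h11 hG

/-- Steps 3 and 4. -/
theorem step34 (c n K : ℕ) (D : ℝ) (h2 : 2 ≤ D) (hD : ∀ m : ℕ, 1 ≤ m → m ≤ 2 * n → (m.divisors.card : ℝ) ≤ D)
    (hK : D ^ (8 * c + 11) ≤ K) (hKn : (K : ℝ) ^ 2 * D ^ (8 * c + 11) ≤ n) (g : ℤ → ℂ) (hg : ∀ x, ‖g x‖ ≤ 1) (hs : ∀ y, y ∉ Icc (1 : ℤ) n → g y = 0)
    (P : Finset (ℤ × ℤ)) (hPc : (n : ℝ) / (K * D ^ c) ≤ P.card) (hP : ∀ p ∈ P, (K : ℝ) / D ^ c ≤ |(p.1 : ℝ)| ∧ |p.1| < K ∧ p.2 ≠ 0 ∧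
      ∃ th : ℝ, (n : ℝ) ^ 2 / D ^ c ≤ ∑ a ∈ Aj K p.1, En n p.1.natAbs (fun y => Gd g (a * (a + p.1) * p.2) y * ee (th * y))) :
    ∃ th : ℝ, (n : ℝ) / D ^ (4 * c + 6) ≤ ‖∑ y ∈ Icc (1 : ℤ) n, g y * ee (th * y)‖ := by
  have hD0 : (0 : ℝ) < D := by linarith
  have hD1 : (1 : ℝ) ≤ D := by linarith
  have hKr : (0 : ℝ) < K := lt_of_lt_of_le (by positivity) hK
  have hK1 : 1 ≤ K := by
    have : 0 < K := by exact_mod_cast hKr
    omega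
  have hK1r : (1 : ℝ) ≤ K := by exact_mod_cast hK1
  have hnr : (0 : ℝ) < n := lt_of_lt_of_le (by positivity) hKn
  have hn : 1 ≤ n := by
    have : 0 < n := by exact_mod_cast hnr
    omega
  have hKn1 : (K : ℝ) * D ^ (8 * c + 11) ≤ n := by
    refine le_trans ?_ hKn
    refine mul_le_mul_of_nonneg_right ?_ (by positivity)
    nlinarith
  have hKn2 : (K : ℝ) ≤ n := by
    refine le_trans ?_ hKn1
    exact le_mul_of_one_le_right hKr.le (one_le_pow₀ hD1)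
  have hKn3 : K ≤ n := by exact_mod_cast hKn2
  have h3 : (P.card : ℝ) * ((n : ℝ) ^ 2 * K / (32 * D ^ (7 * c))) ≤
      ∑ p ∈ P, ∑ x ∈ (Aj K p.1 ×ˢ Aj K p.1).filter (fun x => x.1 ≠ x.2), En n p.1.natAbs (Gd g (p.2 * (x.2 - x.1) * (x.2 + x.1 + p.1))) := by
    rw [← nsmul_eq_mul]
    refine card_nsmul_le_sum _ _ _ fun p hp => ?_
    obtain ⟨h4, h5, h6, th, h7⟩ := hP p hp
    exact one_pair n K c D hn hK1 h2 hK hKn3 g hg hs p.1 p.2 p.1.natAbs (Int.natCast_natAbs p.1) h4 h5 th h7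
  have h4 := offdiag n K D hD g hs P fun p hp => by
    obtain ⟨h4, h5, h6, _⟩ := hP p hp
    refine ⟨?_, h5, h6⟩
    have h7 : (0 : ℝ) < |(p.1 : ℝ)| := lt_of_lt_of_le (by positivity) h4
    exact abs_pos.2 (by exact_mod_cast abs_pos.1 h7)
  have h5 : ∑ m ∈ Ico 1 K, ∑ e ∈ Ioo (-(n : ℤ)) n, En n m (Gd g e) ≤ K * n ^ 2 + D * ∑ d ∈ Ioo (-(n : ℤ)) n, ‖Au n g d‖ ^ 2 := by
    refine le_trans (le_of_eq ?_) (sum_sum_Au n K D hD g hg)
    refine sum_congr rfl fun m hm => ?_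
    rw [mem_Ico] at hm
    exact sum_En n m (by omega) g hs
  obtain ⟨th, h6⟩ := sum_Au n hn g hg hs
  refine ⟨th, ?_⟩
  refine r3 n K _ D c hnr hKr h2 (norm_nonneg _) hKn1 ?_
  have e1 : (n : ℝ) ^ 3 / (32 * D ^ (8 * c)) = (n : ℝ) / (K * D ^ c) * ((n : ℝ) ^ 2 * K / (32 * D ^ (7 * c))) := by
    rw [show 8 * c = c + 7 * c by ring, pow_add]
    field_simp
  rw [e1]
  have e2 : (n : ℝ) / (K * D ^ c) * ((n : ℝ) ^ 2 * K / (32 * D ^ (7 * c))) ≤ (P.card : ℝ) * ((n : ℝ) ^ 2 * K / (32 * D ^ (7 * c))) :=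
    mul_le_mul_of_nonneg_right hPc (by positivity)
  have e3 : 4 * D ^ 2 * ∑ m ∈ Ico 1 K, ∑ e ∈ Ioo (-(n : ℤ)) n, En n m (Gd g e) ≤
      4 * D ^ 2 * (K * n ^ 2 + D * (n * ‖∑ y ∈ Icc (1 : ℤ) n, g y * ee (th * y)‖ ^ 2)) := by
    refine mul_le_mul_of_nonneg_left (h5.trans ?_) (by positivity)
    have := mul_le_mul_of_nonneg_left h6 hD0.le
    linarith
  exact e2.trans (h3.trans (h4.trans e3))

end Pool.Agent.Lib.H81W
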