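import Pool.Agent.Lib.H81E.C3

/-!
# H81W (MP_443e5f, candidate T, module B, helper3's short proof), definitions and facts for steps 3 and 4

All functions live on `Icc (1:ℤ) n`.
-/

open Finset

namespace Pool.Agent.Lib.H81W

open Pool.Agent.H44W (ee TF cut)

/-- The multiplicative derivative. -/
noncomputable def Gd (g : ℤ → ℂ) (d y : ℤ) : ℂ := g y * (starRingEnd ℂ) (g (y + d))

/-- The sum of `u` over one residue class. -/
noncomputable def Sr (n m : ℕ) (u : ℤ → ℂ) (r : ℤ) : ℂ := ∑ y ∈ (Icc (1 : ℤ) n).filter (fun y => y % m = r), u y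

/-- The energy of `u` modulo `m`. -/
noncomputable def En (n m : ℕ) (u : ℤ → ℂ) : ℝ := ∑ r ∈ Ico (0 : ℤ) m, ‖Sr n m u r‖ ^ 2

/-- `m`-periodic functions. -/
def Per (m : ℕ) (p : ℤ → ℂ) : Prop := ∀ y z : ℤ, (m : ℤ) ∣ y - z → p y = p z

theorem En_nonneg (n m : ℕ) (u : ℤ → ℂ) : 0 ≤ En n m u := sum_nonneg fun _ _ => by positivity

theorem norm_Gd_le {g : ℤ → ℂ} (hg : ∀ x, ‖g x‖ ≤ 1) (d y : ℤ) : ‖Gd g d y‖ ≤ 1 := by
  unfold Gd
  rw [norm_mul, RCLike.norm_conj]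
  exact mul_le_one₀ (hg _) (norm_nonneg _) (hg _)

theorem sum_eq_sum_Sr (n m : ℕ) (hm : 0 < m) (u p : ℤ → ℂ) (hp : Per m p) :
    ∑ y ∈ Icc (1 : ℤ) n, u y * p y = ∑ r ∈ Ico (0 : ℤ) m, Sr n m u r * p r := by
  have hm0 : (0 : ℤ) < m := by exact_mod_cast hm
  have hmaps : ∀ y ∈ Icc (1 : ℤ) n, y % m ∈ Ico (0 : ℤ) m := fun y _ => mem_Ico.2 ⟨Int.emod_nonneg _ hm0.ne', Int.emod_lt_of_pos _ hm0⟩
  rw [← sum_fiberwise_of_maps_to hmaps]
  refine sum_congr rfl fun r _ => ?_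
  unfold Sr
  rw [sum_mul]
  refine sum_congr rfl fun y hy => ?_
  rw [mem_filter] at hy
  rw [hp y r]
  rw [← hy.2]
  exact Int.dvd_self_sub_emod

/-- (PC) -/
theorem PC (n m : ℕ) (hm : 0 < m) (u p : ℤ → ℂ) (hp : Per m p) (hp1 : ∀ y, ‖p y‖ ≤ 1) :
    ‖∑ y ∈ Icc (1 : ℤ) n, u y * p y‖ ^ 2 ≤ m * En n m u := by
  rw [sum_eq_sum_Sr n m hm u p hp]
  have h1 : ‖∑ r ∈ Ico (0 : ℤ) m, Sr n m u r * p r‖ ≤ ∑ r ∈ Ico (0 : ℤ) m, 1 * ‖Sr n m u r‖ := by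
    refine (norm_sum_le _ _).trans (sum_le_sum fun r _ => ?_)
    rw [norm_mul, one_mul]
    exact mul_le_of_le_one_right (norm_nonneg _) (hp1 r)
  have h2 := sum_mul_sq_le_sq_mul_sq (Ico (0 : ℤ) m) (fun _ => (1 : ℝ)) (fun r => ‖Sr n m u r‖)
  calc ‖∑ r ∈ Ico (0 : ℤ) m, Sr n m u r * p r‖ ^ 2 ≤ (∑ r ∈ Ico (0 : ℤ) m, 1 * ‖Sr n m u r‖) ^ 2 := pow_le_pow_left₀ (norm_nonneg _) h1 2
    _ ≤ _ := h2
    _ = m * En n m u := by
      unfold En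
      simp

/-- The number of elements of a residue class. -/
theorem card_res (n m : ℕ) (hm : 0 < m) (hmn : m ≤ n) (r : ℤ) : (((Icc (1 : ℤ) n).filter (fun y => y % m = r)).card : ℝ) ≤ 2 * n / m := by
  have hm0 : (0 : ℤ) < m := by exact_mod_cast hm
  have hmr : (0 : ℝ) < m := by exact_mod_cast hm
  have h1 : ((Icc (1 : ℤ) n).filter (fun y => y % m = r)).card ≤ (Icc (0 : ℤ) (n / m : ℤ)).card := by
    refine card_le_card_of_injOn (fun y => y / m) ?_ ?_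
    · intro y hy
      rw [mem_coe, mem_filter, mem_Icc] at hy
      rw [mem_coe, mem_Icc]
      exact ⟨Int.ediv_nonneg (by omega) hm0.le, Int.ediv_le_ediv hm0 hy.1.2⟩
    · intro y hy z hz h
      rw [mem_coe, mem_filter] at hy hz
      have h2 := Int.mul_ediv_add_emod y m
      have h3 := Int.mul_ediv_add_emod z m
      simp only at h
      rw [← h2, ← h3, h, hy.2, hz.2]
  have h2 : ((Icc (0 : ℤ) (n / m : ℤ)).card : ℝ) ≤ (n : ℝ) / m + 1 := by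
    rw [Int.card_Icc]
    have h3 : ((n : ℤ) / m + 1 - 0).toNat = n / m + 1 := by
      rw [sub_zero]
      have : ((n : ℤ) / m + 1) = ((n / m + 1 : ℕ) : ℤ) := by push_cast; rfl
      rw [this, Int.toNat_natCast]
    rw [h3]
    push_cast
    have := @Nat.cast_div_le ℝ _ _ _ n m
    linarith
  have h3 : (1 : ℝ) ≤ (n : ℝ) / m := by
    rw [le_div_iff₀ hmr, one_mul]
    exact_mod_cast hmn
  calc (((Icc (1 : ℤ) n).filter (fun y => y % m = r)).card : ℝ) ≤ ((Icc (0 : ℤ) (n / m : ℤ)).card : ℝ) := by exact_mod_cast h1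
    _ ≤ (n : ℝ) / m + 1 := h2
    _ ≤ (n : ℝ) / m + (n : ℝ) / m := by linarith
    _ = 2 * n / m := by ring

theorem norm_Sr_le (n m : ℕ) (hm : 0 < m) (hmn : m ≤ n) (u : ℤ → ℂ) (hu : ∀ y, ‖u y‖ ≤ 1) (r : ℤ) : ‖Sr n m u r‖ ≤ 2 * n / m := by
  unfold Sr
  refine (norm_sum_le _ _).trans ?_
  refine (sum_le_card_nsmul _ _ 1 fun y _ => hu y).trans ?_
  rw [nsmul_eq_mul, mul_one]
  exact card_res n m hm hmn r

theorem En_le (n m : ℕ) (hm : 0 < m) (hmn : m ≤ n) (u : ℤ → ℂ) (hu : ∀ y, ‖u y‖ ≤ 1) : En n m u ≤ 4 * n ^ 2 / m := by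
  have hmr : (0 : ℝ) < m := by exact_mod_cast hm
  unfold En
  refine (sum_le_card_nsmul _ _ ((2 * n / m : ℝ) ^ 2) fun r _ => pow_le_pow_left₀ (norm_nonneg _) (norm_Sr_le n m hm hmn u hu r) 2).trans ?_
  rw [nsmul_eq_mul, Int.card_Ico, sub_zero, Int.toNat_natCast]
  apply le_of_eq
  field_simp
  ring

/-- (PX) -/
theorem PX (n m : ℕ) (hm : 0 < m) (hmn : m ≤ n) (u : ℤ → ℂ) (hu : ∀ y, ‖u y‖ ≤ 1) :
    ∃ p : ℤ → ℂ, Per m p ∧ (∀ y, ‖p y‖ ≤ 1) ∧ ∑ y ∈ Icc (1 : ℤ) n, u y * p y = ((m / (2 * n) * En n m u : ℝ) : ℂ) := by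
  have hmr : (0 : ℝ) < m := by exact_mod_cast hm
  have hnr : (0 : ℝ) < n := by exact_mod_cast (by omega : 0 < n)
  have hper : Per m (fun y => ((m / (2 * n) : ℝ) : ℂ) * (starRingEnd ℂ) (Sr n m u (y % m))) := by
    intro y z h
    have h1 : y % m = z % m := Int.emod_eq_emod_iff_emod_sub_eq_zero.2 (Int.emod_eq_zero_of_dvd h)
    dsimp only
    rw [h1]
  refine ⟨_, hper, ?_, ?_⟩
  · intro y
    rw [norm_mul, RCLike.norm_conj, Complex.norm_real, Real.norm_eq_abs, abs_of_nonneg (by positivity)]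
    calc (m : ℝ) / (2 * n) * ‖Sr n m u (y % m)‖ ≤ (m : ℝ) / (2 * n) * (2 * n / m) := mul_le_mul_of_nonneg_left (norm_Sr_le n m hm hmn u hu _) (by positivity)
      _ = 1 := by field_simp
  · rw [sum_eq_sum_Sr n m hm u _ hper]
    unfold En
    rw [mul_sum, Complex.ofReal_sum]
    refine sum_congr rfl fun r hr => ?_
    rw [mem_Ico] at hr
    rw [Int.emod_eq_of_lt hr.1 hr.2]
    rw [Complex.ofReal_mul, Complex.ofReal_pow, ← Complex.mul_conj']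
    ring

end Pool.Agent.Lib.H81W
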