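import Pool.Agent.Lib.H81W.Defs

/-!
# H81W, step 3 for one pair `(j, k)`
-/

open Finset

namespace Pool.Agent.Lib.H81W

open Pool.Agent.H44W (ee TF cut)
open Pool.Agent.H81E (norm_ee ee_add ee_neg)

theorem Per.mul {m : ℕ} {p q : ℤ → ℂ} (hp : Per m p) (hq : Per m q) : Per m (fun y => p y * q y) := fun y z h => by
  dsimp only
  rw [hp y z h, hq y z h]

theorem Per.conj {m : ℕ} {p : ℤ → ℂ} (hp : Per m p) : Per m (fun y => (starRingEnd ℂ) (p y)) := fun y z h => by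
  dsimp only
  rw [hp y z h]

theorem Per.shift {m : ℕ} {p : ℤ → ℂ} (hp : Per m p) (t : ℤ) : Per m (fun y => p (y - t)) := fun y z h =>
  hp _ _ (by rw [show y - t - (z - t) = y - z by ring]; exact h)

/-- A sum over a big interval of a function vanishing outside a shifted interval. -/
theorem sum_shift (n : ℕ) (Q q : ℤ) (hq : |q| + n ≤ Q) (F : ℤ → ℂ) (hF : ∀ y, y + q ∉ Icc (1 : ℤ) n → F y = 0) :
    ∑ y ∈ Icc (-Q) Q, F y = ∑ z ∈ Icc (1 : ℤ) n, F (z - q) := by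
  have hq1 := abs_le.1 (show |q| ≤ |q| from le_rfl)
  rw [← sum_subset (s₁ := Icc (1 - q) (n - q))]
  · refine sum_bij' (fun y _ => y + q) (fun z _ => z - q) ?_ ?_ ?_ ?_ ?_
    · intro y hy
      rw [mem_Icc] at hy ⊢
      omega
    · intro y hy
      rw [mem_Icc] at hy ⊢
      omega
    · intro y _
      ring
    · intro y _
      ring
    · intro y _
      rw [add_sub_cancel_right]
  · intro y hy
    rw [mem_Icc] at hy ⊢
    omega
  · intro y _ hy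
    apply hF
    rw [mem_Icc] at hy ⊢
    omega

/-- Step 3 for one pair. -/
theorem step3 (n m : ℕ) (hm : 0 < m) (hmn : m ≤ n) (g : ℤ → ℂ) (hg : ∀ x, ‖g x‖ ≤ 1) (hs : ∀ y, y ∉ Icc (1 : ℤ) n → g y = 0) {ι : Type*} (A : Finset ι) (q : ι → ℤ)
    (th : ℝ) (X : ℝ) (hX0 : 0 ≤ X) (hX : X ≤ ∑ a ∈ A, En n m (fun y => Gd g (q a) y * ee (th * y))) :
    X ^ 4 * m ^ 3 ≤ 16 * n ^ 6 * (A.card : ℝ) ^ 2 * ∑ a ∈ A, ∑ b ∈ A, En n m (Gd g (q b - q a)) := by
  classical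
  have hmr : (0 : ℝ) < m := by exact_mod_cast hm
  have hnr : (0 : ℝ) < n := by exact_mod_cast (by omega : 0 < n)
  have h1 : ∀ a : ι, ∃ p : ℤ → ℂ, Per m p ∧ (∀ y, ‖p y‖ ≤ 1) ∧
      ∑ y ∈ Icc (1 : ℤ) n, (Gd g (q a) y * ee (th * y)) * p y = ((m / (2 * n) * En n m (fun y => Gd g (q a) y * ee (th * y)) : ℝ) : ℂ) :=
    fun a => PX n m hm hmn _ fun y => by
      rw [norm_mul, norm_ee, mul_one]
      exact norm_Gd_le hg _ _
  choose p hp1 hp2 hp3 using h1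
  set T : ℤ → ℂ := fun y => ∑ a ∈ A, (starRingEnd ℂ) (g (y + q a)) * p a y with hT
  set Q : ℤ := n + ∑ a ∈ A, |q a| with hQ
  have hQa : ∀ a ∈ A, |q a| + n ≤ Q := by
    intro a ha
    have := single_le_sum (f := fun a => |q a|) (fun i _ => abs_nonneg (q i)) ha
    rw [hQ]
    linarith
  have hQn : (n : ℤ) ≤ Q := by
    rw [hQ]
    have : 0 ≤ ∑ a ∈ A, |q a| := sum_nonneg fun i _ => abs_nonneg _
    linarith
  -- first Cauchy-Schwarz
  have h2 : (m / (2 * n) * X) ^ 2 ≤ n * ∑ y ∈ Icc (-Q) Q, ‖T y‖ ^ 2 := by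
    have h3 : m / (2 * n) * X ≤ ∑ y ∈ Icc (1 : ℤ) n, 1 * ‖T y‖ := by
      have h4 : ((m / (2 * n) * ∑ a ∈ A, En n m (fun y => Gd g (q a) y * ee (th * y)) : ℝ) : ℂ) = ∑ y ∈ Icc (1 : ℤ) n, g y * ee (th * y) * T y := by
        rw [mul_sum, Complex.ofReal_sum]
        simp_rw [← hp3]
        rw [sum_comm]
        refine sum_congr rfl fun y _ => ?_
        rw [hT]
        dsimp only
        rw [mul_sum]
        refine sum_congr rfl fun a _ => ?_
        unfold Gd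
        ring
      have h5 : ‖((m / (2 * n) * ∑ a ∈ A, En n m (fun y => Gd g (q a) y * ee (th * y)) : ℝ) : ℂ)‖ ≤ ∑ y ∈ Icc (1 : ℤ) n, 1 * ‖T y‖ := by
        rw [h4]
        refine (norm_sum_le _ _).trans (sum_le_sum fun y _ => ?_)
        rw [norm_mul, norm_mul, norm_ee, mul_one]
        exact mul_le_mul_of_nonneg_right (hg y) (norm_nonneg _)
      rw [Complex.norm_real, Real.norm_eq_abs] at h5
      calc m / (2 * n) * X ≤ m / (2 * n) * ∑ a ∈ A, En n m (fun y => Gd g (q a) y * ee (th * y)) := mul_le_mul_of_nonneg_left hX (by positivity)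
        _ ≤ _ := (le_abs_self _).trans h5
    have h4 := sum_mul_sq_le_sq_mul_sq (Icc (1 : ℤ) n) (fun _ => (1 : ℝ)) (fun y => ‖T y‖)
    calc (m / (2 * n) * X) ^ 2 ≤ (∑ y ∈ Icc (1 : ℤ) n, 1 * ‖T y‖) ^ 2 := pow_le_pow_left₀ (by positivity) h3 2
      _ ≤ _ := h4
      _ = n * ∑ y ∈ Icc (1 : ℤ) n, ‖T y‖ ^ 2 := by simp
      _ ≤ n * ∑ y ∈ Icc (-Q) Q, ‖T y‖ ^ 2 := by
          refine mul_le_mul_of_nonneg_left (sum_le_sum_of_subset_of_nonneg ?_ fun _ _ _ => by positivity) hnr.le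
          intro y hy
          rw [mem_Icc] at hy ⊢
          omega
  -- expansion
  have h3 : ∑ y ∈ Icc (-Q) Q, ‖T y‖ ^ 2 ≤ ∑ a ∈ A, ∑ b ∈ A, Real.sqrt (m * En n m (Gd g (q b - q a))) := by
    have h4 : ((∑ y ∈ Icc (-Q) Q, ‖T y‖ ^ 2 : ℝ) : ℂ) =
        ∑ a ∈ A, ∑ b ∈ A, ∑ y ∈ Icc (-Q) Q, (starRingEnd ℂ) (g (y + q a)) * g (y + q b) * (p a y * (starRingEnd ℂ) (p b y)) := by
      rw [Complex.ofReal_sum]
      have h5 : ∀ y, ((‖T y‖ ^ 2 : ℝ) : ℂ) = ∑ a ∈ A, ∑ b ∈ A, (starRingEnd ℂ) (g (y + q a)) * g (y + q b) * (p a y * (starRingEnd ℂ) (p b y)) := by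
        intro y
        rw [Complex.ofReal_pow, ← Complex.mul_conj', hT]
        dsimp only
        rw [map_sum, sum_mul_sum]
        refine sum_congr rfl fun a _ => sum_congr rfl fun b _ => ?_
        rw [map_mul, Complex.conj_conj]
        ring
      simp_rw [h5]
      rw [sum_comm]
      refine sum_congr rfl fun a _ => ?_
      rw [sum_comm]
    have h5 : ∀ a ∈ A, ∀ b ∈ A, ‖∑ y ∈ Icc (-Q) Q, (starRingEnd ℂ) (g (y + q a)) * g (y + q b) * (p a y * (starRingEnd ℂ) (p b y))‖ ≤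
        Real.sqrt (m * En n m (Gd g (q b - q a))) := by
      intro a ha b hb
      rw [sum_shift n Q (q a) (hQa a ha)]
      · have h6 : ∑ z ∈ Icc (1 : ℤ) n, (starRingEnd ℂ) (g (z - q a + q a)) * g (z - q a + q b) * (p a (z - q a) * (starRingEnd ℂ) (p b (z - q a))) =
            (starRingEnd ℂ) (∑ z ∈ Icc (1 : ℤ) n, Gd g (q b - q a) z * ((starRingEnd ℂ) (p a (z - q a)) * p b (z - q a))) := by
          rw [map_sum]
          refine sum_congr rfl fun z _ => ?_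
          unfold Gd
          rw [map_mul, map_mul, map_mul, Complex.conj_conj, Complex.conj_conj, sub_add_cancel, show z - q a + q b = z + (q b - q a) by ring]
        rw [h6, RCLike.norm_conj]
        apply Real.le_sqrt_of_sq_le
        refine PC n m hm _ _ (((hp1 a).shift (q a)).conj.mul ((hp1 b).shift (q a))) ?_
        intro y
        rw [norm_mul, RCLike.norm_conj]
        exact mul_le_one₀ (hp2 a _) (norm_nonneg _) (hp2 b _)
      · intro y hy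
        rw [hs _ hy, map_zero, zero_mul, zero_mul]
    have h6 : ∑ y ∈ Icc (-Q) Q, ‖T y‖ ^ 2 = ‖((∑ y ∈ Icc (-Q) Q, ‖T y‖ ^ 2 : ℝ) : ℂ)‖ := by
      rw [Complex.norm_real, Real.norm_eq_abs, abs_of_nonneg (sum_nonneg fun _ _ => by positivity)]
    rw [h6, h4]
    refine (norm_sum_le _ _).trans (sum_le_sum fun a ha => ?_)
    exact (norm_sum_le _ _).trans (sum_le_sum fun b hb => h5 a ha b hb)
  -- second Cauchy-Schwarz
  have h4 : (∑ a ∈ A, ∑ b ∈ A, Real.sqrt (m * En n m (Gd g (q b - q a)))) ^ 2 ≤ (A.card : ℝ) ^ 2 * (m * ∑ a ∈ A, ∑ b ∈ A, En n m (Gd g (q b - q a))) := by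
    have h5 := sum_mul_sq_le_sq_mul_sq (A ×ˢ A) (fun _ => (1 : ℝ)) (fun x => Real.sqrt (m * En n m (Gd g (q x.2 - q x.1))))
    have h6 : ∑ x ∈ A ×ˢ A, 1 * Real.sqrt (m * En n m (Gd g (q x.2 - q x.1))) = ∑ a ∈ A, ∑ b ∈ A, Real.sqrt (m * En n m (Gd g (q b - q a))) := by
      rw [sum_product]
      simp
    have h7 : ∑ x ∈ A ×ˢ A, Real.sqrt (m * En n m (Gd g (q x.2 - q x.1))) ^ 2 = m * ∑ a ∈ A, ∑ b ∈ A, En n m (Gd g (q b - q a)) := by
      rw [sum_product, mul_sum]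
      refine sum_congr rfl fun a _ => ?_
      rw [mul_sum]
      refine sum_congr rfl fun b _ => ?_
      rw [Real.sq_sqrt (mul_nonneg hmr.le (En_nonneg _ _ _))]
    have h8 : ∑ i ∈ A ×ˢ A, (1 : ℝ) ^ 2 = (A.card : ℝ) ^ 2 := by
      rw [one_pow, sum_const, card_product, nsmul_eq_mul, mul_one, Nat.cast_mul, sq]
    rw [h6, h7, h8] at h5
    exact h5
  set SS := ∑ a ∈ A, ∑ b ∈ A, En n m (Gd g (q b - q a)) with hSig
  have h5 : (m / (2 * n) * X) ^ 4 ≤ n ^ 2 * ((A.card : ℝ) ^ 2 * (m * SS)) := by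
    calc (m / (2 * n) * X) ^ 4 = ((m / (2 * n) * X) ^ 2) ^ 2 := by ring
      _ ≤ (n * ∑ a ∈ A, ∑ b ∈ A, Real.sqrt (m * En n m (Gd g (q b - q a)))) ^ 2 :=
          pow_le_pow_left₀ (by positivity) (h2.trans (mul_le_mul_of_nonneg_left h3 hnr.le)) 2
      _ = n ^ 2 * (∑ a ∈ A, ∑ b ∈ A, Real.sqrt (m * En n m (Gd g (q b - q a)))) ^ 2 := by ring
      _ ≤ _ := mul_le_mul_of_nonneg_left h4 (by positivity)
  have h6 : (m / (2 * n) * X) ^ 4 = m * (X ^ 4 * m ^ 3) / (16 * n ^ 4) := by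
    field_simp
    ring
  rw [h6, div_le_iff₀ (by positivity)] at h5
  have h7 : m * (X ^ 4 * m ^ 3) ≤ m * (16 * n ^ 6 * (A.card : ℝ) ^ 2 * SS) := by
    refine h5.trans (le_of_eq ?_)
    ring
  exact le_of_mul_le_mul_left h7 hmr

end Pool.Agent.Lib.H81W
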