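import Pool.Agent.Lib.H81W.Defs

/-!
# H81W, step 4: the sum of the energies over all differences, Parseval
-/

open Finset

namespace Pool.Agent.Lib.H81W

open Pool.Agent.H44W (ee TF cut)
open Pool.Agent.H81E (norm_ee ee_add ee_neg parseval)

/-- The autocorrelation. -/
noncomputable def Au (n : ℕ) (g : ℤ → ℂ) (d : ℤ) : ℂ := ∑ y ∈ Icc (1 : ℤ) n, g y * (starRingEnd ℂ) (g (y + d))

/-- Energy as a sum over pairs. -/
theorem En_eq (n m : ℕ) (hm : 0 < m) (u : ℤ → ℂ) :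
    ((En n m u : ℝ) : ℂ) = ∑ y ∈ Icc (1 : ℤ) n, ∑ z ∈ Icc (1 : ℤ) n, if (m : ℤ) ∣ z - y then u y * (starRingEnd ℂ) (u z) else 0 := by
  have hm0 : (0 : ℤ) < m := by exact_mod_cast hm
  unfold En
  rw [Complex.ofReal_sum]
  have h1 : ∀ r : ℤ, ((‖Sr n m u r‖ ^ 2 : ℝ) : ℂ) = ∑ y ∈ Icc (1 : ℤ) n, ∑ z ∈ Icc (1 : ℤ) n, if y % m = r then (if z % m = r then u y * (starRingEnd ℂ) (u z) else 0) else 0 := by
    intro r
    rw [Complex.ofReal_pow, ← Complex.mul_conj']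
    unfold Sr
    rw [map_sum, sum_mul_sum, sum_filter]
    refine sum_congr rfl fun y _ => ?_
    split_ifs with h
    · rw [sum_filter]
    · rw [sum_const_zero]
  simp_rw [h1]
  rw [sum_comm]
  refine sum_congr rfl fun y _ => ?_
  rw [sum_comm]
  refine sum_congr rfl fun z _ => ?_
  rw [Finset.sum_ite_eq]
  rw [if_pos (mem_Ico.2 ⟨Int.emod_nonneg _ hm0.ne', Int.emod_lt_of_pos _ hm0⟩)]
  by_cases h : (m : ℤ) ∣ z - y
  · rw [if_pos h, if_pos (Int.emod_eq_emod_iff_emod_sub_eq_zero.2 (Int.emod_eq_zero_of_dvd h))]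
  · rw [if_neg h, if_neg]
    intro h2
    exact h (Int.dvd_of_emod_eq_zero (Int.emod_eq_emod_iff_emod_sub_eq_zero.1 h2))

/-- Change of variable in a sum over `Icc 1 n`. -/
theorem shiftsum (n : ℕ) (y : ℤ) (hy : y ∈ Icc (1 : ℤ) n) (F : ℤ → ℂ) (hF : ∀ z, z ∉ Icc (1 : ℤ) n → F z = 0) :
    ∑ z ∈ Icc (1 : ℤ) n, F z = ∑ d ∈ Ioo (-(n : ℤ)) n, F (y + d) := by
  rw [mem_Icc] at hy
  have h1 : ∑ d ∈ Ioo (-(n : ℤ)) n, F (y + d) = ∑ z ∈ Ioo (y - n) (y + n), F z := by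
    refine sum_bij' (fun d _ => y + d) (fun z _ => z - y) ?_ ?_ ?_ ?_ ?_
    · intro d hd
      rw [mem_Ioo] at hd ⊢
      omega
    · intro d hd
      rw [mem_Ioo] at hd ⊢
      omega
    · intro d _
      ring
    · intro d _
      ring
    · intro d _
      rfl
  rw [h1]
  refine sum_subset ?_ fun z _ hz => hF z hz
  intro z hz
  rw [mem_Icc] at hz
  rw [mem_Ioo]
  omega

/-- The sum of all energies. -/
theorem sum_En (n m : ℕ) (hm : 0 < m) (g : ℤ → ℂ) (hs : ∀ y, y ∉ Icc (1 : ℤ) n → g y = 0) :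
    ∑ e ∈ Ioo (-(n : ℤ)) n, En n m (Gd g e) = ∑ d ∈ (Ioo (-(n : ℤ)) n).filter (fun d => (m : ℤ) ∣ d), ‖Au n g d‖ ^ 2 := by
  have key : ((∑ e ∈ Ioo (-(n : ℤ)) n, En n m (Gd g e) : ℝ) : ℂ) = ((∑ d ∈ (Ioo (-(n : ℤ)) n).filter (fun d => (m : ℤ) ∣ d), ‖Au n g d‖ ^ 2 : ℝ) : ℂ) := by
    rw [Complex.ofReal_sum]
    simp_rw [En_eq n m hm]
    rw [sum_comm]
    have h1 : ∀ y ∈ Icc (1 : ℤ) n, ∑ e ∈ Ioo (-(n : ℤ)) n, ∑ z ∈ Icc (1 : ℤ) n, (if (m : ℤ) ∣ z - y then Gd g e y * (starRingEnd ℂ) (Gd g e z) else 0) =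
        ∑ d ∈ Ioo (-(n : ℤ)) n, (if (m : ℤ) ∣ d then g y * (starRingEnd ℂ) (g (y + d)) * (starRingEnd ℂ) (Au n g d) else 0) := by
      intro y hy
      rw [sum_comm]
      have h2 : ∀ z ∈ Icc (1 : ℤ) n, ∑ e ∈ Ioo (-(n : ℤ)) n, (if (m : ℤ) ∣ z - y then Gd g e y * (starRingEnd ℂ) (Gd g e z) else 0) =
          if (m : ℤ) ∣ z - y then g y * (starRingEnd ℂ) (g z) * (starRingEnd ℂ) (Au n g (z - y)) else 0 := by
        intro z _
        split_ifs with h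
        · have h3 : (starRingEnd ℂ) (Au n g (z - y)) = ∑ e ∈ Ioo (-(n : ℤ)) n, (starRingEnd ℂ) (g (y + e)) * g (z + e) := by
            unfold Au
            rw [map_sum, shiftsum n y hy (fun w => (starRingEnd ℂ) (g w * (starRingEnd ℂ) (g (w + (z - y)))))]
            · refine sum_congr rfl fun e _ => ?_
              rw [map_mul, Complex.conj_conj, show y + e + (z - y) = z + e by ring]
            · intro w hw
              rw [hs w hw, zero_mul, map_zero]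
          rw [h3, mul_sum]
          refine sum_congr rfl fun e _ => ?_
          unfold Gd
          rw [map_mul, Complex.conj_conj]
          ring
        · rw [sum_const_zero]
      rw [sum_congr rfl h2, shiftsum n y hy]
      · refine sum_congr rfl fun d _ => ?_
        rw [add_sub_cancel_left]
      · intro z hz
        split_ifs
        · rw [hs z hz, map_zero, mul_zero, zero_mul]
        · rfl
    rw [sum_congr rfl h1, sum_comm, Complex.ofReal_sum, sum_filter]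
    refine sum_congr rfl fun d _ => ?_
    split_ifs
    · rw [← sum_mul, Complex.ofReal_pow, ← Complex.mul_conj']
      rfl
    · rw [sum_const_zero]
  exact_mod_cast key

/-- The fourth moment of the exponential sum. -/
theorem sum_Au (n : ℕ) (hn : 1 ≤ n) (g : ℤ → ℂ) (hg : ∀ x, ‖g x‖ ≤ 1) (hs : ∀ y, y ∉ Icc (1 : ℤ) n → g y = 0) :
    ∃ th : ℝ, ∑ d ∈ Ioo (-(n : ℤ)) n, ‖Au n g d‖ ^ 2 ≤ n * ‖∑ y ∈ Icc (1 : ℤ) n, g y * ee (th * y)‖ ^ 2 := by
  set M : ℕ := 2 * n with hM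
  have hM0 : 0 < M := by omega
  have hMr : (0 : ℝ) < M := by exact_mod_cast hM0
  have h1 := parseval M hM0 (Ioo (-(n : ℤ)) n) (by
    intro s hs' t ht h
    rw [mem_Ioo] at hs' ht
    have h4 : s - t = 0 := Int.eq_zero_of_abs_lt_dvd h (by rw [abs_lt]; constructor <;> omega)
    omega) (Au n g)
  have h2 := parseval M hM0 (Icc (1 : ℤ) n) (by
    intro s hs' t ht h
    rw [mem_Icc] at hs' ht
    have h4 : s - t = 0 := Int.eq_zero_of_abs_lt_dvd h (by rw [abs_lt]; constructor <;> omega)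
    omega) (fun y => (starRingEnd ℂ) (g y))
  set G : ℕ → ℂ := fun k => ∑ z ∈ Icc (1 : ℤ) n, (starRingEnd ℂ) (g z) * ee ((k : ℝ) * z / M) with hG
  have h3 : ∀ k : ℕ, ∑ d ∈ Ioo (-(n : ℤ)) n, Au n g d * ee ((k : ℝ) * d / M) = (starRingEnd ℂ) (G k) * G k := by
    intro k
    rw [hG]
    dsimp only
    rw [map_sum, sum_mul]
    have h4 : ∀ d ∈ Ioo (-(n : ℤ)) n, Au n g d * ee ((k : ℝ) * d / M) = ∑ y ∈ Icc (1 : ℤ) n, g y * (starRingEnd ℂ) (g (y + d)) * ee ((k : ℝ) * d / M) := by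
      intro d _
      unfold Au
      rw [sum_mul]
    rw [sum_congr rfl h4, sum_comm]
    refine sum_congr rfl fun y hy => ?_
    rw [shiftsum n y hy (fun z => (starRingEnd ℂ) (g z) * ee ((k : ℝ) * z / M))]
    · rw [mul_sum]
      refine sum_congr rfl fun d _ => ?_
      rw [map_mul, Complex.conj_conj, ← ee_neg, show (k : ℝ) * ((y + d : ℤ) : ℝ) / M = (k : ℝ) * y / M + (k : ℝ) * d / M by push_cast; ring, ee_add]
      have h5 : ee (-((k : ℝ) * y / M)) * ee ((k : ℝ) * y / M) = 1 := by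
        rw [← ee_add, neg_add_cancel, Pool.Agent.H81E.ee_zero]
      calc g y * (starRingEnd ℂ) (g (y + d)) * ee ((k : ℝ) * d / M) = g y * (starRingEnd ℂ) (g (y + d)) * ee ((k : ℝ) * d / M) * 1 := by rw [mul_one]
        _ = g y * (starRingEnd ℂ) (g (y + d)) * ee ((k : ℝ) * d / M) * (ee (-((k : ℝ) * y / M)) * ee ((k : ℝ) * y / M)) := by rw [h5]
        _ = _ := by ring
    · intro z hz
      rw [hs z hz, map_zero, zero_mul]
  obtain ⟨k0, _, hk0⟩ := exists_max_image (range M) (fun k => ‖G k‖) ⟨0, mem_range.2 hM0⟩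
  refine ⟨-((k0 : ℝ) / M), ?_⟩
  have h4 : ∑ y ∈ Icc (1 : ℤ) n, g y * ee (-((k0 : ℝ) / M) * y) = (starRingEnd ℂ) (G k0) := by
    rw [hG]
    dsimp only
    rw [map_sum]
    refine sum_congr rfl fun y _ => ?_
    rw [map_mul, Complex.conj_conj, ← ee_neg]
    congr 2
    ring
  rw [h4, RCLike.norm_conj]
  have h5 : ∑ k ∈ range M, ‖∑ d ∈ Ioo (-(n : ℤ)) n, Au n g d * ee ((k : ℝ) * d / M)‖ ^ 2 ≤ ‖G k0‖ ^ 2 * ∑ k ∈ range M, ‖G k‖ ^ 2 := by
    rw [mul_sum]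
    refine sum_le_sum fun k hk => ?_
    rw [h3, norm_mul, RCLike.norm_conj, mul_pow]
    exact mul_le_mul_of_nonneg_right (pow_le_pow_left₀ (norm_nonneg _) (hk0 k hk) 2) (by positivity)
  rw [h1, h2] at h5
  have h6 : ∑ s ∈ Icc (1 : ℤ) n, ‖(starRingEnd ℂ) (g s)‖ ^ 2 ≤ n := by
    refine (sum_le_card_nsmul _ _ 1 fun y _ => ?_).trans ?_
    · rw [RCLike.norm_conj]
      exact pow_le_one₀ (norm_nonneg _) (hg y)
    · simp
  have h7 : (M : ℝ) * ∑ d ∈ Ioo (-(n : ℤ)) n, ‖Au n g d‖ ^ 2 ≤ M * (n * ‖G k0‖ ^ 2) := by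
    calc (M : ℝ) * ∑ d ∈ Ioo (-(n : ℤ)) n, ‖Au n g d‖ ^ 2 ≤ ‖G k0‖ ^ 2 * (M * ∑ s ∈ Icc (1 : ℤ) n, ‖(starRingEnd ℂ) (g s)‖ ^ 2) := h5
      _ ≤ ‖G k0‖ ^ 2 * (M * n) := by gcongr
      _ = _ := by ring
  exact le_of_mul_le_mul_left h7 hMr

theorem norm_Au_le (n : ℕ) (g : ℤ → ℂ) (hg : ∀ x, ‖g x‖ ≤ 1) (d : ℤ) : ‖Au n g d‖ ≤ n := by
  unfold Au
  refine (norm_sum_le _ _).trans ((sum_le_card_nsmul _ _ 1 fun y _ => norm_Gd_le hg d y).trans ?_)
  simp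

/-- Summation over the moduli `m < K`: every `d ≠ 0` is counted at most `d(|d|)` times. -/
theorem sum_sum_Au (n K : ℕ) (D : ℝ) (hD : ∀ m : ℕ, 1 ≤ m → m ≤ 2 * n → (m.divisors.card : ℝ) ≤ D) (g : ℤ → ℂ) (hg : ∀ x, ‖g x‖ ≤ 1) :
    ∑ m ∈ Ico 1 K, ∑ d ∈ (Ioo (-(n : ℤ)) n).filter (fun d => (m : ℤ) ∣ d), ‖Au n g d‖ ^ 2 ≤ K * n ^ 2 + D * ∑ d ∈ Ioo (-(n : ℤ)) n, ‖Au n g d‖ ^ 2 := by
  simp_rw [sum_filter]
  rw [sum_comm]
  have h1 : ∀ d ∈ Ioo (-(n : ℤ)) n, ∑ m ∈ Ico 1 K, (if (m : ℤ) ∣ d then ‖Au n g d‖ ^ 2 else 0) ≤ (if d = 0 then (K : ℝ) * n ^ 2 else 0) + D * ‖Au n g d‖ ^ 2 := by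
    intro d hd
    rw [mem_Ioo] at hd
    have hD0 : 0 ≤ D := (Nat.cast_nonneg _).trans (hD 1 le_rfl (by omega))
    rw [← sum_filter, sum_const, nsmul_eq_mul]
    split_ifs with h0
    · have h2 : (((Ico 1 K).filter (fun m : ℕ => (m : ℤ) ∣ d)).card : ℝ) ≤ K := by
        have := card_filter_le (Ico 1 K) (fun m : ℕ => (m : ℤ) ∣ d)
        rw [Nat.card_Ico] at this
        exact_mod_cast this.trans (Nat.sub_le _ _)
      have h3 : ‖Au n g d‖ ^ 2 ≤ (n : ℝ) ^ 2 := pow_le_pow_left₀ (norm_nonneg _) (norm_Au_le n g hg d) 2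
      have h4 := mul_le_mul h2 h3 (by positivity) (Nat.cast_nonneg K)
      have h5 : 0 ≤ D * ‖Au n g d‖ ^ 2 := by positivity
      linarith
    · rw [zero_add]
      refine mul_le_mul_of_nonneg_right ?_ (by positivity)
      refine le_trans ?_ (hD d.natAbs (by omega) (by omega))
      have h2 : (Ico 1 K).filter (fun m : ℕ => (m : ℤ) ∣ d) ⊆ d.natAbs.divisors := by
        intro m hm
        rw [mem_filter] at hm
        rw [Nat.mem_divisors]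
        exact ⟨Int.natCast_dvd.1 hm.2, by omega⟩
      exact_mod_cast card_le_card h2
  refine (sum_le_sum h1).trans ?_
  rw [sum_add_distrib, ← mul_sum]
  refine add_le_add ?_ le_rfl
  rw [Finset.sum_ite_eq']
  split_ifs
  · exact le_rfl
  · positivity

end Pool.Agent.Lib.H81W
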