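import Pool.Agent.Lib.H81W.S3
import Pool.Agent.Lib.H81W.S4

/-!
# H81W, steps 3 and 4 together
-/

open Finset

namespace Pool.Agent.Lib.H81W

open Pool.Agent.H44W (ee TF cut)
open Pool.Agent.H81E (norm_ee ee_add ee_neg parseval)

/-- The `a` with `a` and `a + j` in `[K, 2K)`. -/
noncomputable def Aj (K : ℕ) (j : ℤ) : Finset ℤ := (Ico (K : ℤ) (2 * K)).filter (fun a => a + j ∈ Ico (K : ℤ) (2 * K))

theorem mem_Aj {K : ℕ} {j a : ℤ} : a ∈ Aj K j ↔ (K : ℤ) ≤ a ∧ a < 2 * K ∧ (K : ℤ) ≤ a + j ∧ a + j < 2 * K := by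
  unfold Aj
  rw [mem_filter, mem_Ico, mem_Ico]
  tauto

theorem card_Aj (K : ℕ) (j : ℤ) : (Aj K j).card ≤ K := by
  refine (card_filter_le _ _).trans ?_
  rw [Int.card_Ico]
  omega

theorem En_zero (n m : ℕ) (g : ℤ → ℂ) (hs : ∀ y, y ∉ Icc (1 : ℤ) n → g y = 0) (e : ℤ) (he : e ∉ Ioo (-(n : ℤ)) n) : En n m (Gd g e) = 0 := by
  unfold En Sr
  refine sum_eq_zero fun r _ => ?_
  rw [sum_eq_zero, norm_zero, sq, mul_zero]
  intro y hy
  rw [mem_filter, mem_Icc] at hy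
  rw [mem_Ioo] at he
  unfold Gd
  rw [hs (y + e) (by rw [mem_Icc]; omega), map_zero, mul_zero]

/-- The fibre bound: for fixed `j` and `e ≠ 0` there are at most `2 D ^ 2` triples `(k, a, b)` with `k (b - a) (b + a + j) = e`. -/
theorem fibre (K : ℕ) (j e : ℤ) (he : e ≠ 0) (D : ℝ) (hD : (e.natAbs.divisors.card : ℝ) ≤ D) (S : Finset (ℤ × ℤ × ℤ))
    (hS : ∀ t ∈ S, t.2.1 ∈ Aj K j ∧ t.2.2 ∈ Aj K j ∧ t.1 * (t.2.2 - t.2.1) * (t.2.2 + t.2.1 + j) = e) : (S.card : ℝ) ≤ 2 * D ^ 2 := by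
  have h1 : S.card ≤ ((e.natAbs.divisors ×ˢ e.natAbs.divisors) ×ˢ (univ : Finset Bool)).card := by
    refine card_le_card_of_injOn (fun t => (((t.2.2 - t.2.1).natAbs, (t.2.2 + t.2.1 + j).natAbs), decide (t.2.1 < t.2.2))) ?_ ?_
    · intro t ht
      rw [mem_coe] at ht
      obtain ⟨h1, h2, h3⟩ := hS t ht
      rw [mem_coe, mem_product, mem_product, Nat.mem_divisors, Nat.mem_divisors]
      refine ⟨⟨⟨?_, by omega⟩, ⟨?_, by omega⟩⟩, mem_univ _⟩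
      · exact Int.natAbs_dvd_natAbs.2 ⟨t.1 * (t.2.2 + t.2.1 + j), by rw [← h3]; ring⟩
      · exact Int.natAbs_dvd_natAbs.2 ⟨t.1 * (t.2.2 - t.2.1), by rw [← h3]; ring⟩
    · intro t ht t' ht' h
      rw [mem_coe] at ht ht'
      obtain ⟨h1, h2, h3⟩ := hS t ht
      obtain ⟨h1', h2', h3'⟩ := hS t' ht'
      rw [mem_Aj] at h1 h2 h1' h2'
      simp only [Prod.mk.injEq, decide_eq_decide] at h
      obtain ⟨⟨h4, h5⟩, h6⟩ := h
      have h7 : t.2.2 + t.2.1 + j = t'.2.2 + t'.2.1 + j := by omega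
      have h8 : t.2.2 - t.2.1 = t'.2.2 - t'.2.1 := by
        by_cases h9 : t.2.1 < t.2.2
        · have h10 := h6.1 h9
          omega
        · have h10 : ¬ t'.2.1 < t'.2.2 := fun h => h9 (h6.2 h)
          omega
      have h9 : t.1 = t'.1 := by
        have h10 : (t.2.2 - t.2.1) * (t.2.2 + t.2.1 + j) ≠ 0 := by
          intro h0
          apply he
          rw [← h3, mul_assoc, h0, mul_zero]
        apply mul_right_cancel₀ h10
        rw [← mul_assoc, h3, h7, h8, ← mul_assoc, h3']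
      refine Prod.ext h9 (Prod.ext ?_ ?_)
      · omega
      · omega
  have h2 : ((((e.natAbs.divisors ×ˢ e.natAbs.divisors) ×ˢ (univ : Finset Bool)).card : ℕ) : ℝ) = (e.natAbs.divisors.card : ℝ) ^ 2 * 2 := by
    rw [card_product, card_product]
    simp [sq]
  calc (S.card : ℝ) ≤ ((((e.natAbs.divisors ×ˢ e.natAbs.divisors) ×ˢ (univ : Finset Bool)).card : ℕ) : ℝ) := by exact_mod_cast h1
    _ = (e.natAbs.divisors.card : ℝ) ^ 2 * 2 := h2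
    _ ≤ D ^ 2 * 2 := by gcongr
    _ = 2 * D ^ 2 := by ring

/-- The off-diagonal sum over `P`. -/
theorem offdiag (n K : ℕ) (D : ℝ) (hD : ∀ m : ℕ, 1 ≤ m → m ≤ 2 * n → (m.divisors.card : ℝ) ≤ D) (g : ℤ → ℂ)
    (hs : ∀ y, y ∉ Icc (1 : ℤ) n → g y = 0) (P : Finset (ℤ × ℤ)) (hP : ∀ p ∈ P, 0 < |p.1| ∧ |p.1| < K ∧ p.2 ≠ 0) :
    ∑ p ∈ P, ∑ x ∈ (Aj K p.1 ×ˢ Aj K p.1).filter (fun x => x.1 ≠ x.2), En n p.1.natAbs (Gd g (p.2 * (x.2 - x.1) * (x.2 + x.1 + p.1))) ≤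
      4 * D ^ 2 * ∑ m ∈ Ico 1 K, ∑ e ∈ Ioo (-(n : ℤ)) n, En n m (Gd g e) := by
  classical
  rcases Nat.eq_zero_or_pos n with rfl | hn
  · have h0 : ∀ (m : ℕ) (u : ℤ → ℂ), En 0 m u = 0 := by
      intro m u
      unfold En Sr
      simp
    simp [h0]
  have hD0 : 0 ≤ D := (Nat.cast_nonneg _).trans (hD 1 le_rfl (by omega))
  -- all tuples
  set T : Finset ((ℤ × ℤ) × (ℤ × ℤ)) := (P ×ˢ ((Ico (K : ℤ) (2 * K)) ×ˢ (Ico (K : ℤ) (2 * K)))).filter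
    (fun t => t.2.1 ∈ Aj K t.1.1 ∧ t.2.2 ∈ Aj K t.1.1 ∧ t.2.1 ≠ t.2.2) with hT
  have h1 : ∑ p ∈ P, ∑ x ∈ (Aj K p.1 ×ˢ Aj K p.1).filter (fun x => x.1 ≠ x.2), En n p.1.natAbs (Gd g (p.2 * (x.2 - x.1) * (x.2 + x.1 + p.1))) =
      ∑ t ∈ T, En n t.1.1.natAbs (Gd g (t.1.2 * (t.2.2 - t.2.1) * (t.2.2 + t.2.1 + t.1.1))) := by
    rw [hT, sum_filter, sum_product]
    refine sum_congr rfl fun p _ => ?_
    rw [← sum_filter]
    refine sum_congr ?_ fun x _ => rfl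
    ext x
    simp only [mem_filter, mem_product]
    constructor
    · rintro ⟨⟨h2, h3⟩, h4⟩
      refine ⟨⟨?_, ?_⟩, h2, h3, h4⟩
      · rw [mem_Aj] at h2
        rw [mem_Ico]
        omega
      · rw [mem_Aj] at h3
        rw [mem_Ico]
        omega
    · rintro ⟨_, h2, h3, h4⟩
      exact ⟨⟨h2, h3⟩, h4⟩
  rw [h1]
  -- restrict to `|e| < n`
  set T' : Finset ((ℤ × ℤ) × (ℤ × ℤ)) := T.filter (fun t => t.1.2 * (t.2.2 - t.2.1) * (t.2.2 + t.2.1 + t.1.1) ∈ Ioo (-(n : ℤ)) n) with hT'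
  have h2 : ∑ t ∈ T, En n t.1.1.natAbs (Gd g (t.1.2 * (t.2.2 - t.2.1) * (t.2.2 + t.2.1 + t.1.1))) =
      ∑ t ∈ T', En n t.1.1.natAbs (Gd g (t.1.2 * (t.2.2 - t.2.1) * (t.2.2 + t.2.1 + t.1.1))) := by
    symm
    refine sum_subset (filter_subset _ _) fun t ht ht' => ?_
    rw [hT', mem_filter] at ht'
    exact En_zero n _ g hs _ fun h => ht' ⟨ht, h⟩
  rw [h2]
  set J : Finset ℤ := (Ioo (-(K : ℤ)) K).filter (fun j => j ≠ 0) with hJ
  set E : Finset ℤ := (Ioo (-(n : ℤ)) n).filter (fun e => e ≠ 0) with hE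
  have hne : ∀ t ∈ T, t.1.2 * (t.2.2 - t.2.1) * (t.2.2 + t.2.1 + t.1.1) ≠ 0 := by
    intro t ht
    rw [hT, mem_filter, mem_product] at ht
    obtain ⟨⟨h3, _⟩, h4, h5, h6⟩ := ht
    rw [mem_Aj] at h4 h5
    have h7 := hP _ h3
    refine mul_ne_zero (mul_ne_zero h7.2.2 (by omega)) (by omega)
  have hmaps : ∀ t ∈ T', (t.1.1, t.1.2 * (t.2.2 - t.2.1) * (t.2.2 + t.2.1 + t.1.1)) ∈ J ×ˢ E := by
    intro t ht
    rw [hT', mem_filter] at ht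
    have h3 := hne t ht.1
    have h4 := ht.1
    rw [hT, mem_filter, mem_product] at h4
    have h5 := hP _ h4.1.1
    rw [mem_product, hJ, hE, mem_filter, mem_filter]
    refine ⟨⟨?_, ?_⟩, ht.2, h3⟩
    · rw [mem_Ioo]
      have := abs_lt.1 h5.2.1
      exact this
    · exact abs_pos.1 h5.1
  rw [← sum_fiberwise_of_maps_to hmaps]
  have h3 : ∀ x ∈ J ×ˢ E, ∑ t ∈ T'.filter (fun t => (t.1.1, t.1.2 * (t.2.2 - t.2.1) * (t.2.2 + t.2.1 + t.1.1)) = x),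
      En n t.1.1.natAbs (Gd g (t.1.2 * (t.2.2 - t.2.1) * (t.2.2 + t.2.1 + t.1.1))) ≤ 2 * D ^ 2 * En n x.1.natAbs (Gd g x.2) := by
    intro x hx
    rw [mem_product, hJ, hE, mem_filter, mem_filter, mem_Ioo, mem_Ioo] at hx
    have h4 : ∀ t ∈ T'.filter (fun t => (t.1.1, t.1.2 * (t.2.2 - t.2.1) * (t.2.2 + t.2.1 + t.1.1)) = x),
        En n t.1.1.natAbs (Gd g (t.1.2 * (t.2.2 - t.2.1) * (t.2.2 + t.2.1 + t.1.1))) = En n x.1.natAbs (Gd g x.2) := by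
      intro t ht
      rw [mem_filter] at ht
      rw [← ht.2]
    rw [sum_congr rfl h4, sum_const, nsmul_eq_mul]
    refine mul_le_mul_of_nonneg_right ?_ (En_nonneg _ _ _)
    set S' : Finset (ℤ × ℤ × ℤ) := (T'.filter (fun t => (t.1.1, t.1.2 * (t.2.2 - t.2.1) * (t.2.2 + t.2.1 + t.1.1)) = x)).image (fun t => (t.1.2, t.2.1, t.2.2)) with hS'
    have h5 : (T'.filter (fun t => (t.1.1, t.1.2 * (t.2.2 - t.2.1) * (t.2.2 + t.2.1 + t.1.1)) = x)).card = S'.card := by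
      rw [hS', card_image_of_injOn]
      intro t ht t' ht' h
      rw [mem_coe, mem_filter] at ht ht'
      have h6 := congrArg Prod.fst (ht.2.trans ht'.2.symm)
      simp only [Prod.mk.injEq] at h h6
      exact Prod.ext (Prod.ext h6 h.1) (Prod.ext h.2.1 h.2.2)
    rw [h5]
    refine fibre K x.1 x.2 hx.2.2 D (hD _ (by omega) (by omega)) S' ?_
    intro s hs'
    rw [hS', mem_image] at hs'
    obtain ⟨t, ht, rfl⟩ := hs'
    rw [mem_filter] at ht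
    have h6 := ht.1
    rw [hT', mem_filter, hT, mem_filter] at h6
    have h7 : t.1.1 = x.1 := (Prod.ext_iff.1 ht.2).1
    have h8 : t.1.2 * (t.2.2 - t.2.1) * (t.2.2 + t.2.1 + t.1.1) = x.2 := (Prod.ext_iff.1 ht.2).2
    refine ⟨?_, ?_, ?_⟩
    · rw [← h7]; exact h6.1.2.1
    · rw [← h7]; exact h6.1.2.2.1
    · rw [← h8, ← h7]
  refine (sum_le_sum h3).trans ?_
  rw [← mul_sum, sum_product]
  have h4 : ∑ j ∈ J, ∑ e ∈ E, En n j.natAbs (Gd g e) ≤ 2 * ∑ m ∈ Ico 1 K, ∑ e ∈ Ioo (-(n : ℤ)) n, En n m (Gd g e) := by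
    have h5 : ∀ j ∈ J, ∑ e ∈ E, En n j.natAbs (Gd g e) ≤ ∑ e ∈ Ioo (-(n : ℤ)) n, En n j.natAbs (Gd g e) := fun j _ =>
      sum_le_sum_of_subset_of_nonneg (filter_subset _ _) fun _ _ _ => En_nonneg _ _ _
    refine (sum_le_sum h5).trans ?_
    have hmaps2 : ∀ j ∈ J, j.natAbs ∈ Ico 1 K := by
      intro j hj
      rw [hJ, mem_filter, mem_Ioo] at hj
      rw [mem_Ico]
      omega
    rw [← sum_fiberwise_of_maps_to hmaps2, mul_sum]
    refine sum_le_sum fun m hm => ?_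
    have h6 : ∀ j ∈ J.filter (fun j => j.natAbs = m), ∑ e ∈ Ioo (-(n : ℤ)) n, En n j.natAbs (Gd g e) = ∑ e ∈ Ioo (-(n : ℤ)) n, En n m (Gd g e) := by
      intro j hj
      rw [mem_filter] at hj
      rw [hj.2]
    rw [sum_congr rfl h6, sum_const, nsmul_eq_mul]
    refine mul_le_mul_of_nonneg_right ?_ (sum_nonneg fun _ _ => En_nonneg _ _ _)
    have h7 : J.filter (fun j => j.natAbs = m) ⊆ {(m : ℤ), -(m : ℤ)} := by
      intro j hj
      rw [mem_filter] at hj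
      rw [mem_insert, mem_singleton]
      omega
    have h8 := (card_le_card h7).trans card_le_two
    exact_mod_cast h8
  calc 2 * D ^ 2 * ∑ j ∈ J, ∑ e ∈ E, En n j.natAbs (Gd g e) ≤ 2 * D ^ 2 * (2 * ∑ m ∈ Ico 1 K, ∑ e ∈ Ioo (-(n : ℤ)) n, En n m (Gd g e)) :=
        mul_le_mul_of_nonneg_left h4 (by positivity)
    _ = _ := by ring

end Pool.Agent.Lib.H81W
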